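import Mathlib
import Pool.Agent.H.MP_96e181_an.Furst
import Pool.Agent.H.MP_96e181_an.Erg
import Pool.Agent.H.MP_96e181_an.TV

set_option autoImplicit false

namespace Pool.Agent.H.MP_96e181_an

open MeasureTheory Filter Topology Set
open scoped ENNReal NNReal

/-- Translations `t` for which `μ + t` is within `δ` of `ν` (one-sided total variation). -/
def nearSet (μ ν : Measure UnitAddCircle) (δ : ℝ≥0∞) : Set UnitAddCircle :=
  {t | ∀ A : Set UnitAddCircle, MeasurableSet A → (μ.map (fun x => x + t)) A ≤ ν A + δ}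

theorem map_add_apply (μ : Measure UnitAddCircle) (t : UnitAddCircle) {A : Set UnitAddCircle}
    (hA : MeasurableSet A) : (μ.map (fun x => x + t)) A = μ {x | x + t ∈ A} :=
  Measure.map_apply (measurable_add_const t) hA

theorem isClosed_open_part (μ : Measure UnitAddCircle) [IsFiniteMeasure μ]
    {U : Set UnitAddCircle} (hU : IsOpen U) (C : ℝ≥0∞) :
    IsClosed {t : UnitAddCircle | μ {x | x + t ∈ U} ≤ C} := by
  rw [← isOpen_compl_iff, Metric.isOpen_iff]
  intro t ht
  have ht' : C < μ {x | x + t ∈ U} := not_le.1 ht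
  have hopen : IsOpen {x : UnitAddCircle | x + t ∈ U} :=
    hU.preimage (by fun_prop : Continuous (fun x : UnitAddCircle => x + t))
  obtain ⟨K, hKU, hK, hCK⟩ := hopen.exists_lt_isCompact ht'
  have hK2 : IsCompact ((fun x => x + t) '' K) := hK.image (by fun_prop)
  have hsub : (fun x => x + t) '' K ⊆ U := by
    rintro _ ⟨x, hx, rfl⟩
    exact hKU hx
  obtain ⟨ε, hε, hth⟩ := hK2.exists_thickening_subset_open hU hsub
  refine ⟨ε, hε, fun t' ht' => ?_⟩
  change ¬ (μ {x | x + t' ∈ U} ≤ C)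
  rw [not_le]
  refine hCK.trans_le (measure_mono (fun x hx => ?_))
  apply hth
  rw [Metric.mem_thickening_iff]
  refine ⟨x + t, ⟨x, hx, rfl⟩, ?_⟩
  rwa [dist_add_left, ← Metric.mem_ball]

theorem nearSet_eq (μ ν : Measure UnitAddCircle) [IsFiniteMeasure μ] [IsFiniteMeasure ν]
    (δ : ℝ≥0∞) :
    nearSet μ ν δ = ⋂ (U : Set UnitAddCircle) (_ : IsOpen U), {t | μ {x | x + t ∈ U} ≤ ν U + δ} := by
  ext t
  simp only [nearSet, mem_ofPred_eq, mem_iInter]
  constructor
  · intro h U hU
    rw [← map_add_apply μ t hU.measurableSet]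
    exact h U hU.measurableSet
  · intro h A hA
    rw [map_add_apply μ t hA]
    refine ENNReal.le_of_forall_pos_le_add (fun ε hε _ => ?_)
    obtain ⟨U, hAU, hU, hUle⟩ := A.exists_isOpen_le_add ν (ε := (ε : ℝ≥0∞)) (by
      exact_mod_cast hε.ne')
    calc μ {x | x + t ∈ A} ≤ μ {x | x + t ∈ U} := measure_mono (fun x hx => hAU hx)
      _ ≤ ν U + δ := h U hU
      _ ≤ ν A + ε + δ := by gcongr
      _ = ν A + δ + ε := by rw [add_right_comm]

theorem isClosed_nearSet (μ ν : Measure UnitAddCircle) [IsFiniteMeasure μ] [IsFiniteMeasure ν]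
    (δ : ℝ≥0∞) : IsClosed (nearSet μ ν δ) := by
  rw [nearSet_eq]
  exact isClosed_iInter (fun U => isClosed_iInter (fun hU => isClosed_open_part μ hU _))

theorem nearSet_nsmul {μ ν : Measure UnitAddCircle} {p : ℕ}
    (hμ : MeasurePreserving (fun x : UnitAddCircle => p • x) μ μ)
    (hν : MeasurePreserving (fun x : UnitAddCircle => p • x) ν ν) {δ : ℝ≥0∞}
    {t : UnitAddCircle} (ht : t ∈ nearSet μ ν δ) : p • t ∈ nearSet μ ν δ := by
  intro A hA
  rw [map_add_apply μ _ hA]
  have hB : MeasurableSet {x : UnitAddCircle | x + p • t ∈ A} := (measurable_add_const _) hA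
  rw [← hμ.measure_preimage hB.nullMeasurableSet, ← hν.measure_preimage hA.nullMeasurableSet]
  have h1 := ht _ (hν.measurable hA)
  rw [map_add_apply μ t (hν.measurable hA)] at h1
  have h2 : {x : UnitAddCircle | x + t ∈ (fun x : UnitAddCircle => p • x) ⁻¹' A} =
      (fun x : UnitAddCircle => p • x) ⁻¹' {x | x + p • t ∈ A} := by
    ext x
    simp [smul_add]
  rwa [h2] at h1

theorem lintegral_translate (μ : Measure UnitAddCircle) [IsProbabilityMeasure μ]
    {A : Set UnitAddCircle} (hA : MeasurableSet A) :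
    ∫⁻ t, μ {x | x + t ∈ A} ∂(volume : Measure UnitAddCircle) =
      (volume : Measure UnitAddCircle) A := by
  have hmeas : MeasurableSet {z : UnitAddCircle × UnitAddCircle | z.1 + z.2 ∈ A} :=
    (measurable_fst.add measurable_snd) hA
  have e1 : ∀ t : UnitAddCircle, μ {x | x + t ∈ A} =
      ∫⁻ x, Set.indicator {z : UnitAddCircle × UnitAddCircle | z.1 + z.2 ∈ A} 1 (x, t) ∂μ := by
    intro t
    exact (lintegral_indicator_one (μ := μ) ((measurable_add_const t) hA)).symm
  simp_rw [e1]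
  rw [lintegral_lintegral_swap]
  · have e2 : ∀ x : UnitAddCircle,
        ∫⁻ t, Set.indicator {z : UnitAddCircle × UnitAddCircle | z.1 + z.2 ∈ A} 1 (x, t)
          ∂(volume : Measure UnitAddCircle) = (volume : Measure UnitAddCircle) A := by
      intro x
      have e3 : ∫⁻ t, Set.indicator {z : UnitAddCircle × UnitAddCircle | z.1 + z.2 ∈ A} 1 (x, t)
          ∂(volume : Measure UnitAddCircle) =
          ∫⁻ t, Set.indicator ((fun t => x + t) ⁻¹' A) 1 t ∂(volume : Measure UnitAddCircle) :=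
        rfl
      rw [e3, lintegral_indicator_one ((measurable_const_add x) hA), measure_preimage_add]
    simp_rw [e2]
    simp
  · have : Measurable (Set.indicator {z : UnitAddCircle × UnitAddCircle | z.1 + z.2 ∈ A}
        (1 : UnitAddCircle × UnitAddCircle → ℝ≥0∞)) := measurable_one.indicator hmeas
    exact (this.comp measurable_swap).aemeasurable

/-- If every point of the circle is `ε`-close to a translation `t` for which `μ` translated by `t`
is `δ`-close to `ν`, then Lebesgue measure is `δ`-close to `ν`, up to an `ε`-thickening. -/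
theorem le_of_nearSet_dense {μ ν : Measure UnitAddCircle} [IsProbabilityMeasure μ] {δ : ℝ≥0∞}
    {ε : ℝ} (hd : ∀ z : UnitAddCircle, ∃ t ∈ nearSet μ ν δ, dist z t < ε)
    {A : Set UnitAddCircle} (hA : MeasurableSet A) :
    (volume : Measure UnitAddCircle) A ≤ ν (Metric.thickening ε A) + δ := by
  have h1 : ∀ t : UnitAddCircle, μ {x | x + t ∈ A} ≤ ν (Metric.thickening ε A) + δ := by
    intro t
    obtain ⟨s, hs, hts⟩ := hd t
    have h2 := hs (Metric.thickening ε A) Metric.isOpen_thickening.measurableSet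
    rw [map_add_apply μ s Metric.isOpen_thickening.measurableSet] at h2
    refine (measure_mono ?_).trans h2
    intro x hx
    rw [mem_ofPred_eq, Metric.mem_thickening_iff]
    refine ⟨x + t, hx, ?_⟩
    rw [dist_add_left, dist_comm]
    exact hts
  calc (volume : Measure UnitAddCircle) A
      = ∫⁻ t, μ {x | x + t ∈ A} ∂(volume : Measure UnitAddCircle) := (lintegral_translate μ hA).symm
    _ ≤ ∫⁻ _, (ν (Metric.thickening ε A) + δ) ∂(volume : Measure UnitAddCircle) :=
        lintegral_mono h1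
    _ = ν (Metric.thickening ε A) + δ := by simp

/-- Some point of the circle has a dense orbit under multiplication by `p`. -/
theorem exists_dense_p_orbit {p : ℕ} (hp : 2 ≤ p) :
    ∃ t : UnitAddCircle, Dense (range fun n : ℕ => p ^ n • t) := by
  have hB := TopologicalSpace.isBasis_countableBasis UnitAddCircle
  have hvol : IsProbabilityMeasure (volume : Measure UnitAddCircle) :=
    ⟨UnitAddCircle.measure_univ⟩
  have herg : Ergodic (fun y : UnitAddCircle => p • y) volume :=
    AddCircle.ergodic_nsmul (T := 1) (by omega)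
  have h1 : ∀ᵐ x ∂(volume : Measure UnitAddCircle),
      ∀ V ∈ TopologicalSpace.countableBasis UnitAddCircle, ∃ m : ℕ, p ^ m • x ∈ V := by
    rw [ae_ball_iff (TopologicalSpace.countable_countableBasis UnitAddCircle)]
    intro V hV
    have hVo : IsOpen V := hB.isOpen hV
    have hVne : V.Nonempty := TopologicalSpace.nonempty_of_mem_countableBasis hV
    set E : Set UnitAddCircle := ⋃ m : ℕ, (fun x : UnitAddCircle => p ^ m • x) ⁻¹' V with hE
    have hEo : IsOpen E := isOpen_iUnion fun m => hVo.preimage (continuous_const_smul _)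
    have hVE : V ⊆ E := fun x hx => mem_iUnion.2 ⟨0, by simpa using hx⟩
    have hsub : (fun y : UnitAddCircle => p • y) ⁻¹' E ⊆ E := by
      intro x hx
      obtain ⟨m, hm⟩ := mem_iUnion.1 hx
      refine mem_iUnion.2 ⟨m + 1, ?_⟩
      simp only [mem_preimage] at hm ⊢
      rwa [pow_succ, mul_smul]
    rcases herg.ae_empty_or_univ_of_preimage_ae_le hEo.measurableSet.nullMeasurableSet
      (LE.le.eventuallyLE hsub) with h2 | h2
    · exfalso
      have h3 : (volume : Measure UnitAddCircle) E = 0 := ae_eq_empty.1 h2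
      have h4 : 0 < (volume : Measure UnitAddCircle) V := hVo.measure_pos volume hVne
      exact absurd (measure_mono_null hVE h3) h4.ne'
    · filter_upwards [eventuallyEq_univ.1 h2] with x hx
      exact mem_iUnion.1 hx
  obtain ⟨t, ht⟩ := h1.exists
  refine ⟨t, ?_⟩
  rw [hB.dense_iff]
  intro V hV _
  obtain ⟨m, hm⟩ := ht V hV
  exact ⟨_, hm, ⟨m, rfl⟩⟩

/-- If `C` is infinite and mapped into itself by `p`, then for every `ε` some `q ^ j • C` is
`ε`-dense. -/
theorem exists_dense_dilate {p q : ℕ} (hp : 2 ≤ p) (hq : 2 ≤ q)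
    (h : Irrational (Real.log (p : ℝ) / Real.log (q : ℝ))) {C : Set UnitAddCircle}
    (hCp : ∀ x ∈ C, p • x ∈ C) (hinf : C.Infinite) {ε : ℝ} (hε : 0 < ε) :
    ∃ j : ℕ, ∀ z : UnitAddCircle, ∃ t ∈ C, dist z (q ^ j • t) < ε := by
  have hCpn : ∀ n : ℕ, ∀ x ∈ C, p ^ n • x ∈ C := by
    intro n
    induction n with
    | zero => intro x hx; simpa using hx
    | succ n ih => intro x hx; rw [pow_succ, mul_smul]; exact ih _ (hCp x hx)
  set D : Set UnitAddCircle := ⋃ j : ℕ, (fun x : UnitAddCircle => q ^ j • x) '' C with hD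
  have hCD : C ⊆ D := fun x hx => mem_iUnion.2 ⟨0, x, hx, by simp⟩
  have hDp : ∀ x ∈ D, p • x ∈ D := by
    intro x hx
    obtain ⟨j, y, hy, rfl⟩ := mem_iUnion.1 hx
    refine mem_iUnion.2 ⟨j, p • y, hCp y hy, ?_⟩
    simp only
    rw [smul_comm]
  have hDq : ∀ x ∈ D, q • x ∈ D := by
    intro x hx
    obtain ⟨j, y, hy, rfl⟩ := mem_iUnion.1 hx
    refine mem_iUnion.2 ⟨j + 1, y, hy, ?_⟩
    simp only
    rw [pow_succ', mul_smul]
  have hcl : ∀ n : ℕ, (∀ x ∈ D, n • x ∈ D) → ∀ x ∈ closure D, n • x ∈ closure D := by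
    intro n hn x hx
    have := image_closure_subset_closure_image (continuous_const_smul n)
      (mem_image_of_mem (fun z : UnitAddCircle => n • z) hx)
    refine closure_mono ?_ this
    rintro _ ⟨y, hy, rfl⟩
    exact hn y hy
  have huniv : closure D = univ := furstenberg hp hq h
    ⟨isClosed_closure, hcl p hDp, hcl q hDq⟩ (hinf.mono (hCD.trans subset_closure))
  obtain ⟨t, ht⟩ := exists_dense_p_orbit hp
  -- finitely many times suffice
  obtain ⟨L, hL⟩ : ∃ L : Finset ℕ, ∀ z : UnitAddCircle, ∃ n ∈ L,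
      dist z (p ^ n • t) < ε / 2 := by
    have hcov : (univ : Set UnitAddCircle) ⊆ ⋃ n : ℕ, Metric.ball (p ^ n • t) (ε / 2) := by
      intro z _
      obtain ⟨_, ⟨n, rfl⟩, hn⟩ := Metric.mem_closure_iff.1 (ht z) (ε / 2) (by positivity)
      exact mem_iUnion.2 ⟨n, hn⟩
    obtain ⟨L, hL⟩ := isCompact_univ.elim_finite_subcover
      (fun n : ℕ => Metric.ball (p ^ n • t) (ε / 2)) (fun n => Metric.isOpen_ball) hcov
    refine ⟨L, fun z => ?_⟩
    have := hL (mem_univ z)
    simp only [mem_iUnion, exists_prop] at this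
    exact this
  have hopen : IsOpen (⋂ n ∈ L, {s : UnitAddCircle | dist (p ^ n • t) (p ^ n • s) < ε / 2}) := by
    refine isOpen_biInter_finset fun n _ => isOpen_lt ?_ continuous_const
    exact continuous_const.dist (continuous_const_smul (p ^ n))
  have hmemt : t ∈ closure D := by rw [huniv]; trivial
  obtain ⟨x, hx1, hx2⟩ := mem_closure_iff.1 hmemt _ hopen (by
    simp only [mem_iInter, mem_ofPred_eq, dist_self]; intro _ _; positivity)
  obtain ⟨j, y, hy, rfl⟩ := mem_iUnion.1 hx2
  refine ⟨j, fun z => ?_⟩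
  obtain ⟨n, hn, hzn⟩ := hL z
  refine ⟨p ^ n • y, hCpn n y hy, ?_⟩
  simp only [mem_iInter, mem_ofPred_eq] at hx1
  calc dist z (q ^ j • p ^ n • y) = dist z (p ^ n • q ^ j • y) := by rw [smul_comm]
    _ ≤ dist z (p ^ n • t) + dist (p ^ n • t) (p ^ n • q ^ j • y) := dist_triangle _ _ _
    _ < ε / 2 + ε / 2 := add_lt_add hzn (hx1 n hn)
    _ = ε := by ring

theorem tvDist_le_iff {α β : Measure UnitAddCircle} {δ : ℝ≥0∞} :
    tvDist α β ≤ δ ↔ ∀ A : Set UnitAddCircle, MeasurableSet A → α A ≤ β A + δ := by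
  simp only [tvDist, iSup_le_iff, tsub_le_iff_left]

theorem nearSet_eq_tv (μ ν : Measure UnitAddCircle) (δ : ℝ≥0∞) :
    nearSet μ ν δ = {t | tvDist (μ.map (fun x => x + t)) ν ≤ δ} := by
  ext t
  simp only [nearSet, mem_ofPred_eq, tvDist_le_iff]

theorem nearSet_map_nsmul {μ ν : Measure UnitAddCircle} {m : ℕ}
    (hν : MeasurePreserving (fun x : UnitAddCircle => m • x) ν ν) {δ : ℝ≥0∞}
    {t : UnitAddCircle} (ht : t ∈ nearSet μ ν δ) :
    m • t ∈ nearSet (μ.map (fun x : UnitAddCircle => m • x)) ν δ := by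
  intro A hA
  have hmc : Measurable (fun x : UnitAddCircle => m • x) := hν.measurable
  rw [map_add_apply _ _ hA]
  have hB : MeasurableSet {x : UnitAddCircle | x + m • t ∈ A} := (measurable_add_const _) hA
  rw [Measure.map_apply hmc hB, ← hν.measure_preimage hA.nullMeasurableSet]
  have h1 := ht _ (hmc hA)
  rw [map_add_apply μ t (hmc hA)] at h1
  have h2 : {x : UnitAddCircle | x + t ∈ (fun x : UnitAddCircle => m • x) ⁻¹' A} =
      (fun x : UnitAddCircle => m • x) ⁻¹' {x | x + m • t ∈ A} := by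
    ext x
    simp [smul_add]
  rwa [h2] at h1

/-- Finitely many near translations. -/
theorem nearSet_finite {p q : ℕ} (hp : 2 ≤ p) (hq : 2 ≤ q)
    (h : Irrational (Real.log (p : ℝ) / Real.log (q : ℝ)))
    {μ ν : Measure UnitAddCircle} [IsProbabilityMeasure μ] [IsProbabilityMeasure ν]
    (hμp : MeasurePreserving (fun x : UnitAddCircle => p • x) μ μ)
    (hνp : MeasurePreserving (fun x : UnitAddCircle => p • x) ν ν)
    (hνq : MeasurePreserving (fun x : UnitAddCircle => q • x) ν ν)
    {δ : ℝ≥0∞} (hδ : δ < tvDist (volume : Measure UnitAddCircle) ν) :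
    (nearSet μ ν δ).Finite := by
  by_contra hinf
  have hvol : IsProbabilityMeasure (volume : Measure UnitAddCircle) :=
    ⟨UnitAddCircle.measure_univ⟩
  -- closed sets, with thickening
  have h1 : ∀ ε : ℝ, 0 < ε → ∀ A : Set UnitAddCircle, MeasurableSet A →
      (volume : Measure UnitAddCircle) A ≤ ν (Metric.thickening ε A) + δ := by
    intro ε hε A hA
    obtain ⟨j, hj⟩ := exists_dense_dilate hp hq h (C := nearSet μ ν δ)
      (fun t ht => nearSet_nsmul hμp hνp ht) hinf hε
    have hqc : Measurable fun x : UnitAddCircle => q ^ j • x :=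
      (continuous_const_smul (q ^ j)).measurable
    have hprob : IsProbabilityMeasure (μ.map fun x : UnitAddCircle => q ^ j • x) :=
      Measure.isProbabilityMeasure_map hqc.aemeasurable
    refine le_of_nearSet_dense (μ := μ.map fun x : UnitAddCircle => q ^ j • x) (fun z => ?_) hA
    obtain ⟨t, ht, hzt⟩ := hj z
    exact ⟨q ^ j • t, nearSet_map_nsmul (mp_pow hνq j) ht, hzt⟩
  -- closed sets
  have h2 : ∀ A : Set UnitAddCircle, IsClosed A →
      (volume : Measure UnitAddCircle) A ≤ ν A + δ := by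
    intro A hA
    have hthick := tendsto_measure_thickening_of_isClosed (μ := ν) (s := A)
      ⟨1, one_pos, measure_ne_top _ _⟩ hA
    refine ge_of_tendsto (hthick.add_const δ) ?_
    filter_upwards [self_mem_nhdsWithin] with ε hε
    exact h1 ε hε A hA.measurableSet
  -- all Borel sets
  have h3 : tvDist (volume : Measure UnitAddCircle) ν ≤ δ := by
    rw [tvDist_le_iff]
    intro A hA
    refine le_of_forall_lt fun c hc => ?_
    obtain ⟨K, hKA, hK, hcK⟩ := hA.exists_lt_isCompact hc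
    exact hcK.trans_le ((h2 K hK.isClosed).trans (by gcongr))
  exact absurd h3 (not_le.2 hδ)

/-- No near translations of infinite order. -/
theorem not_mem_nearSet {p q : ℕ} (hp : 2 ≤ p) (hq : 2 ≤ q)
    (h : Irrational (Real.log (p : ℝ) / Real.log (q : ℝ)))
    {μ ν : Measure UnitAddCircle} [IsProbabilityMeasure μ] [IsProbabilityMeasure ν]
    (hμp : MeasurePreserving (fun x : UnitAddCircle => p • x) μ μ)
    (hνp : MeasurePreserving (fun x : UnitAddCircle => p • x) ν ν)
    (hνq : MeasurePreserving (fun x : UnitAddCircle => q • x) ν ν)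
    {δ : ℝ≥0∞} (hδ : δ < tvDist (volume : Measure UnitAddCircle) ν)
    {t : UnitAddCircle} (ht : ¬ IsOfFinAddOrder t) : t ∉ nearSet μ ν δ := by
  intro hmem
  have hfin := nearSet_finite hp hq h hμp hνp hνq hδ
  have hpow : ∀ k : ℕ, p ^ k • t ∈ nearSet μ ν δ := by
    intro k
    induction k with
    | zero => simpa using hmem
    | succ k ih => rw [pow_succ', mul_smul]; exact nearSet_nsmul hμp hνp ih
  have hinj : Function.Injective (fun k : ℕ => p ^ k • t) := by
    intro k l hkl
    have h1 : Function.Injective (fun n : ℕ => n • t) :=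
      injective_nsmul_iff_not_isOfFinAddOrder.2 ht
    exact Nat.pow_right_injective hp (h1 hkl)
  exact (Set.infinite_of_injective_forall_mem hinj hpow) hfin

/-- Being far for every `δ < 1` means mutually singular. -/
theorem mutuallySingular_of_far {α β : Measure UnitAddCircle} [IsProbabilityMeasure α]
    [IsProbabilityMeasure β]
    (h : ∀ δ : ℝ≥0∞, δ < 1 → ∃ A : Set UnitAddCircle, MeasurableSet A ∧ β A + δ < α A) :
    α ⟂ₘ β := by
  have hn : ∀ n : ℕ, ∃ A : Set UnitAddCircle, MeasurableSet A ∧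
      β A ≤ (2⁻¹ : ℝ≥0∞) ^ n ∧ α Aᶜ ≤ (2⁻¹ : ℝ≥0∞) ^ n := by
    intro n
    have hpos : (2⁻¹ : ℝ≥0∞) ^ n ≠ 0 := by simp
    have hle : (2⁻¹ : ℝ≥0∞) ^ n ≤ 1 := pow_le_one₀ zero_le (by simp)
    obtain ⟨A, hA, hlt⟩ := h (1 - (2⁻¹ : ℝ≥0∞) ^ n)
      (ENNReal.sub_lt_self ENNReal.one_ne_top one_ne_zero hpos)
    refine ⟨A, hA, ?_, ?_⟩
    · have h1 : β A + (1 - (2⁻¹ : ℝ≥0∞) ^ n) ≤ 1 := hlt.le.trans prob_le_one
      have h2 : β A + (1 - (2⁻¹ : ℝ≥0∞) ^ n) ≤ (2⁻¹ : ℝ≥0∞) ^ n + (1 - (2⁻¹ : ℝ≥0∞) ^ n) := by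
        rwa [add_tsub_cancel_of_le hle]
      exact (ENNReal.add_le_add_iff_right
        (ne_top_of_le_ne_top ENNReal.one_ne_top tsub_le_self)).1 h2
    · rw [prob_compl_eq_one_sub hA]
      have h1 : 1 - (2⁻¹ : ℝ≥0∞) ^ n ≤ α A := le_trans le_add_self hlt.le
      rw [tsub_le_iff_right] at h1 ⊢
      rwa [add_comm]
  choose A hA hβ hα using hn
  have hsum : ∑' n : ℕ, (2⁻¹ : ℝ≥0∞) ^ n ≠ ∞ := by
    rw [ENNReal.tsum_geometric]
    simp
  have h1 : β (limsup A atTop) = 0 :=
    measure_limsup_atTop_eq_zero (ne_top_of_le_ne_top hsum (ENNReal.tsum_le_tsum hβ))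
  have h2 : α (limsup (fun n => (A n)ᶜ) atTop) = 0 :=
    measure_limsup_atTop_eq_zero (ne_top_of_le_ne_top hsum (ENNReal.tsum_le_tsum hα))
  refine ⟨(limsup A atTop)ᶜ, (MeasurableSet.measurableSet_limsup hA).compl, ?_, ?_⟩
  · refine measure_mono_null ?_ h2
    intro x hx
    rw [mem_compl_iff, mem_limsup_iff_frequently_mem, not_frequently] at hx
    rw [mem_limsup_iff_frequently_mem]
    exact hx.frequently
  · rwa [compl_compl]

theorem tvDist_eq_one_of_singular {α β : Measure UnitAddCircle} [IsProbabilityMeasure α]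
    (h : α ⟂ₘ β) : 1 ≤ tvDist α β := by
  obtain ⟨A, hA, hA1, hA2⟩ := h
  have h1 : α Aᶜ = 1 := by
    have := prob_add_prob_compl (μ := α) hA
    rwa [hA1, zero_add] at this
  have h2 : α Aᶜ - β Aᶜ ≤ tvDist α β :=
    le_iSup₂_of_le Aᶜ hA.compl le_rfl
  rwa [h1, hA2, tsub_zero] at h2

theorem mutuallySingular_of_tvDist {α β : Measure UnitAddCircle} [IsProbabilityMeasure α]
    [IsProbabilityMeasure β] (h : 1 ≤ tvDist α β) : α ⟂ₘ β := by
  apply mutuallySingular_of_far
  intro δ hδ
  have h1 : ¬ tvDist α β ≤ δ := not_le.2 (lt_of_lt_of_le hδ h)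
  rw [tvDist_le_iff] at h1
  push Not at h1
  exact h1

end Pool.Agent.H.MP_96e181_an
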