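import Mathlib
import Pool.Agent.H.MP_96e181_an.helper5.Translate

set_option autoImplicit false

namespace Pool.Agent.H.MP_96e181_an

open MeasureTheory Filter Topology Set
open scoped ENNReal NNReal

/-- The representative in `[0, 1)` of a point of the circle. -/
noncomputable def rep01 (x : UnitAddCircle) : ℝ := (AddCircle.equivIco (1 : ℝ) 0 x : ℝ)

/-- The `1`-periodic measure on the real line whose restriction to `[0, 1)` is `μ`. -/
noncomputable def periodicLift (μ : Measure UnitAddCircle) : Measure ℝ :=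
  Measure.sum fun n : ℤ => μ.map fun x => rep01 x + n

theorem measurable_rep01 : Measurable rep01 :=
  measurable_subtype_coe.comp (AddCircle.measurableEquivIco (1 : ℝ) 0).measurable

theorem coe_rep01 (x : UnitAddCircle) : ((rep01 x : ℝ) : UnitAddCircle) = x :=
  AddCircle.coe_equivIco

theorem rep01_mem (x : UnitAddCircle) : rep01 x ∈ Ico (0 : ℝ) 1 := by
  have := (AddCircle.equivIco (1 : ℝ) 0 x).2
  simpa [rep01] using this

theorem rep01_coe {y : ℝ} (hy : y ∈ Ico (0 : ℝ) 1) : rep01 (y : UnitAddCircle) = y := by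
  have hy' : y ∈ Ico (0 : ℝ) (0 + 1) := by simpa using hy
  have := AddCircle.equivIco_coe_eq (p := (1 : ℝ)) (a := 0) hy'
  simp [rep01, this]

theorem rep01_nsmul (m : ℕ) (x : UnitAddCircle) :
    rep01 (m • x) = m * rep01 x - ⌊(m : ℝ) * rep01 x⌋ := by
  have h1 : m • x = ((Int.fract ((m : ℝ) * rep01 x) : ℝ) : UnitAddCircle) := by
    rw [AddCircle.coe_fract, ← nsmul_eq_mul, AddCircle.coe_nsmul, coe_rep01]
  rw [h1, rep01_coe ⟨Int.fract_nonneg _, Int.fract_lt_one _⟩]
  rfl

/-- The map `x ↦ l x + s (mod 1)` on `[0, 1)`. -/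
noncomputable def affMap (l : ℝ) (s x : UnitAddCircle) : UnitAddCircle :=
  ((l * rep01 x : ℝ) : UnitAddCircle) + s

theorem measurable_affMap (l : ℝ) (s : UnitAddCircle) : Measurable (affMap l s) := by
  have h1 : Measurable fun x : ℝ => (x : UnitAddCircle) :=
    (AddCircle.continuous_mk' (1 : ℝ)).measurable
  exact (h1.comp (measurable_rep01.const_mul l)).add_const s

theorem affMap_nsmul (l : ℝ) (m : ℕ) (s x : UnitAddCircle) :
    affMap l (m • s + ((l * (⌊(m : ℝ) * rep01 x⌋ : ℤ) : ℝ) : UnitAddCircle)) (m • x) =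
      m • affMap l s x := by
  unfold affMap
  rw [rep01_nsmul, smul_add, ← AddCircle.coe_nsmul, nsmul_eq_mul]
  have h1 : (m : ℝ) * (l * rep01 x) =
      l * ((m : ℝ) * rep01 x - ⌊(m : ℝ) * rep01 x⌋) + l * (⌊(m : ℝ) * rep01 x⌋ : ℤ) := by
    ring
  rw [h1, AddCircle.coe_add]
  abel

theorem exists_null_part (α ν : Measure UnitAddCircle) [IsFiniteMeasure α] [IsFiniteMeasure ν] :
    ∃ N : Set UnitAddCircle, MeasurableSet N ∧ ν N = 0 ∧
      ∀ E : Set UnitAddCircle, MeasurableSet E → ν E = 0 → α (E \ N) = 0 := by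
  obtain ⟨M, hM, hM1, hM2⟩ := Measure.mutuallySingular_singularPart α ν
  refine ⟨Mᶜ, hM.compl, hM2, fun E hE hνE => ?_⟩
  have hdec := Measure.haveLebesgueDecomposition_of_sigmaFinite α ν
  have h1 : α = α.singularPart ν + ν.withDensity (α.rnDeriv ν) :=
    Measure.haveLebesgueDecomposition_add α ν
  rw [h1, Measure.add_apply, add_eq_zero]
  constructor
  · refine measure_mono_null ?_ hM1
    intro x hx
    by_contra hxM
    exact hx.2 hxM
  · exact measure_mono_null sdiff_subset (withDensity_absolutelyContinuous ν _ hνE)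

theorem dist_le_rep01 (x y : UnitAddCircle) : dist x y ≤ |rep01 x - rep01 y| := by
  rw [dist_eq_norm, ← coe_rep01 x, ← coe_rep01 y, ← AddCircle.coe_sub, UnitAddCircle.norm_eq,
    coe_rep01, coe_rep01]
  simpa using round_le (rep01 x - rep01 y) 0

theorem small_balls (μ : Measure UnitAddCircle) [IsFiniteMeasure μ] [NullSingletonClass μ] {η : ℝ≥0∞}
    (hη : 0 < η) : ∃ δ : ℝ, 0 < δ ∧ ∀ x : UnitAddCircle, μ (Metric.ball x δ) < η := by
  have h1 : ∀ x : UnitAddCircle, ∃ r : ℝ, 0 < r ∧ μ (Metric.ball x r) < η := by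
    intro x
    have h2 : Tendsto (fun r => μ (Metric.cthickening r {x})) (𝓝 0) (𝓝 (μ {x})) := by
      have := tendsto_measure_cthickening_of_isClosed (μ := μ) (s := {x})
        ⟨1, one_pos, measure_ne_top _ _⟩ isClosed_singleton
      exact this
    rw [measure_singleton] at h2
    have h3 := (h2.eventually (gt_mem_nhds hη))
    obtain ⟨r, hr, hr2⟩ := Metric.eventually_nhds_iff.1 h3
    refine ⟨r / 2, by positivity, ?_⟩
    have h4 := hr2 (y := r / 2) (by
      rw [Real.dist_eq, sub_zero, abs_of_pos (by positivity)]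
      linarith)
    refine lt_of_le_of_lt (measure_mono ?_) h4
    intro y hy
    rw [Metric.mem_ball] at hy
    exact Metric.mem_cthickening_of_dist_le y x _ _ rfl hy.le
  choose r hr hr2 using h1
  obtain ⟨δ, hδ, hδ2⟩ := lebesgue_number_lemma_of_metric (s := (univ : Set UnitAddCircle))
    (c := fun x : UnitAddCircle => Metric.ball x (r x)) isCompact_univ
    (fun x => Metric.isOpen_ball) (fun x _ => mem_iUnion.2 ⟨x, Metric.mem_ball_self (hr x)⟩)
  refine ⟨δ, hδ, fun x => ?_⟩
  obtain ⟨y, hy⟩ := hδ2 x (mem_univ x)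
  exact lt_of_le_of_lt (measure_mono hy) (hr2 y)

theorem small_cells (μ : Measure UnitAddCircle) [IsFiniteMeasure μ] [NullSingletonClass μ] {p : ℕ}
    (hp : 2 ≤ p) {η : ℝ≥0∞} (hη : 0 < η) :
    ∃ n₀ : ℕ, ∀ n : ℕ, n₀ ≤ n → ∀ i : ℤ, μ {x | ⌊((p ^ n : ℕ) : ℝ) * rep01 x⌋ = i} ≤ η := by
  obtain ⟨δ, hδ, hball⟩ := small_balls μ hη
  obtain ⟨n₀, hn₀⟩ : ∃ n₀ : ℕ, (1 / (p : ℝ)) ^ n₀ < δ := by
    apply exists_pow_lt_of_lt_one hδ
    rw [div_lt_one (by positivity)]
    exact_mod_cast hp
  refine ⟨n₀, fun n hn i => ?_⟩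
  by_cases hne : {x : UnitAddCircle | ⌊((p ^ n : ℕ) : ℝ) * rep01 x⌋ = i}.Nonempty
  · obtain ⟨y, hy⟩ := hne
    refine le_trans (measure_mono ?_) (hball y).le
    intro x hx
    have hx' : ⌊((p ^ n : ℕ) : ℝ) * rep01 x⌋ = i := hx
    have hy' : ⌊((p ^ n : ℕ) : ℝ) * rep01 y⌋ = i := hy
    have hpn : (0 : ℝ) < ((p ^ n : ℕ) : ℝ) := by
      have : 0 < p ^ n := by positivity
      exact_mod_cast this
    have h1 : |((p ^ n : ℕ) : ℝ) * rep01 x - ((p ^ n : ℕ) : ℝ) * rep01 y| < 1 :=
      Int.abs_sub_lt_one_of_floor_eq_floor (hx'.trans hy'.symm)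
    rw [← mul_sub, abs_mul, abs_of_pos hpn] at h1
    rw [Metric.mem_ball]
    refine lt_of_le_of_lt (dist_le_rep01 x y) ?_
    have h2 : |rep01 x - rep01 y| < 1 / ((p ^ n : ℕ) : ℝ) := by
      rw [lt_div_iff₀ hpn]
      linarith
    refine h2.trans (lt_of_le_of_lt ?_ hn₀)
    rw [one_div_pow]
    push_cast
    apply one_div_le_one_div_of_le (by positivity)
    exact pow_le_pow_right₀ (by exact_mod_cast (by omega : 1 ≤ p)) hn
  · rw [not_nonempty_iff_eq_empty] at hne
    rw [hne, measure_empty]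
    exact zero_le

/-- Translates by elements of infinite order are singular (part (iii) of `Translates`). -/
theorem translate_singular {p q : ℕ} (hp : 2 ≤ p) (hq : 2 ≤ q)
    (h : Irrational (Real.log (p : ℝ) / Real.log (q : ℝ)))
    {μ ν : Measure UnitAddCircle} [IsProbabilityMeasure μ] [IsProbabilityMeasure ν]
    (hμp : MeasurePreserving (fun x : UnitAddCircle => p • x) μ μ)
    (hνp : MeasurePreserving (fun x : UnitAddCircle => p • x) ν ν)
    (hνq : MeasurePreserving (fun x : UnitAddCircle => q • x) ν ν)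
    (hsing : ν ⟂ₘ (volume : Measure UnitAddCircle)) {t : UnitAddCircle}
    (ht : ¬ IsOfFinAddOrder t) : (μ.map (fun x => x + t)) ⟂ₘ ν := by
  have hprob : IsProbabilityMeasure (μ.map (fun x => x + t)) :=
    Measure.isProbabilityMeasure_map (measurable_add_const t).aemeasurable
  have hvol : IsProbabilityMeasure (volume : Measure UnitAddCircle) :=
    ⟨UnitAddCircle.measure_univ⟩
  refine mutuallySingular_of_tvDist ((tvDist_eq_one_of_singular hsing.symm).trans ?_)
  by_contra hlt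
  push Not at hlt
  have hmem : t ∈ nearSet μ ν (tvDist (μ.map (fun x => x + t)) ν) := by
    rw [nearSet_eq_tv]
    change tvDist (μ.map (fun x => x + t)) ν ≤ tvDist (μ.map (fun x => x + t)) ν
    exact le_rfl
  exact not_mem_nearSet hp hq h hμp hνp hνq hlt ht hmem

section Main

variable {μ ν : Measure UnitAddCircle} {l : ℝ}

/-- Data attached to a family of affine maps: for each `s` the set of points of the circle whose
germ is matched with `ν` by `x ↦ l x + s`. -/
structure Matching (μ ν : Measure UnitAddCircle) (l : ℝ) (A : UnitAddCircle → Set UnitAddCircle)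
    (N : UnitAddCircle → Set UnitAddCircle) : Prop where
  measN : ∀ s, MeasurableSet (N s)
  nullN : ∀ s, ν (N s) = 0
  defA : ∀ s, A s = {x | affMap l s x ∉ N s}
  ac : ∀ s, ∀ E : Set UnitAddCircle, MeasurableSet E → ν E = 0 →
    μ (A s ∩ affMap l s ⁻¹' E) = 0

theorem exists_matching (μ ν : Measure UnitAddCircle) [IsFiniteMeasure μ] [IsFiniteMeasure ν]
    (l : ℝ) : ∃ A N, Matching μ ν l A N := by
  have h := fun s : UnitAddCircle => exists_null_part (μ.map (affMap l s)) ν
  choose N hN hN0 hac using h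
  refine ⟨fun s => {x | affMap l s x ∉ N s}, N, hN, hN0, fun s => rfl, fun s E hE hE0 => ?_⟩
  have h1 := hac s E hE hE0
  rw [Measure.map_apply (measurable_affMap l s) (hE.diff (hN s))] at h1
  refine measure_mono_null ?_ h1
  intro x hx
  exact ⟨hx.2, hx.1⟩

theorem Matching.measA {A N : UnitAddCircle → Set UnitAddCircle} (M : Matching μ ν l A N)
    (s : UnitAddCircle) : MeasurableSet (A s) := by
  rw [M.defA]
  exact (measurable_affMap l s (M.measN s)).compl

theorem Matching.step {A N : UnitAddCircle → Set UnitAddCircle} (M : Matching μ ν l A N)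
    {m : ℕ} (hm : MeasurePreserving (fun x : UnitAddCircle => m • x) ν ν) (s : UnitAddCircle) :
    ∀ᵐ x ∂μ, x ∈ A s →
      m • x ∈ A (m • s + ((l * (⌊(m : ℝ) * rep01 x⌋ : ℤ) : ℝ) : UnitAddCircle)) := by
  have h1 : ∀ᵐ x ∂μ, ∀ i : ℤ,
      ¬ (x ∈ A s ∧ m • affMap l s x ∈ N (m • s + ((l * (i : ℤ) : ℝ) : UnitAddCircle))) := by
    rw [ae_all_iff]
    intro i
    rw [ae_iff]
    have h2 := M.ac s ((fun x : UnitAddCircle => m • x) ⁻¹'
      N (m • s + ((l * (i : ℤ) : ℝ) : UnitAddCircle))) (hm.measurable (M.measN _)) (by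
        rw [hm.measure_preimage (M.measN _).nullMeasurableSet]; exact M.nullN _)
    refine measure_mono_null ?_ h2
    intro x hx
    simp only [not_not] at hx
    exact ⟨hx.1, hx.2⟩
  filter_upwards [h1] with x hx hxA
  rw [M.defA]
  intro hmem
  rw [affMap_nsmul] at hmem
  exact hx _ ⟨hxA, hmem⟩

theorem Matching.disjoint {A N : UnitAddCircle → Set UnitAddCircle} (M : Matching μ ν l A N)
    (hsing : ∀ t : UnitAddCircle, ¬ IsOfFinAddOrder t → (ν.map (fun x => x + t)) ⟂ₘ ν)
    {s s' : UnitAddCircle} (hs : ¬ IsOfFinAddOrder (s' - s)) : μ (A s ∩ A s') = 0 := by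
  obtain ⟨B, hB, hB1, hB2⟩ := hsing _ hs
  rw [map_add_apply ν _ hB] at hB1
  have h1 := M.ac s _ ((measurable_add_const (s' - s)) hB) hB1
  have h2 := M.ac s' _ hB.compl hB2
  refine measure_mono_null ?_ (measure_union_null h1 h2)
  rintro x ⟨hx, hx'⟩
  by_cases hxB : affMap l s' x ∈ B
  · left
    refine ⟨hx, ?_⟩
    have e : affMap l s x + (s' - s) = affMap l s' x := by
      unfold affMap
      abel
    change affMap l s x + (s' - s) ∈ B
    rwa [e]
  · right
    exact ⟨hx', hxB⟩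

/-- Finite additive order of the class of a real number means rationality. -/
theorem isOfFinAddOrder_coe_iff {y : ℝ} :
    IsOfFinAddOrder (y : UnitAddCircle) ↔ ¬ Irrational y := by
  rw [AddCircle.isOfFinAddOrder_iff_exists_rat_eq_div]
  simp [Irrational]

/-- The translation parameters met along the orbit. -/
noncomputable def orb (p : ℕ) (l : ℝ) (s : UnitAddCircle) (z : ℕ × ℤ) : UnitAddCircle :=
  p ^ z.1 • s + ((l * (z.2 : ℤ) : ℝ) : UnitAddCircle)

theorem orb_sub_same (p : ℕ) (l : ℝ) (s : UnitAddCircle) (n : ℕ) (i j : ℤ) :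
    orb p l s (n, i) - orb p l s (n, j) = ((l * ((i - j : ℤ) : ℝ) : ℝ) : UnitAddCircle) := by
  unfold orb
  push_cast
  rw [mul_sub, AddCircle.coe_sub]
  abel

theorem Matching.null {A N : UnitAddCircle → Set UnitAddCircle} (M : Matching μ ν l A N)
    [IsFiniteMeasure μ] {p : ℕ} (hp : 2 ≤ p)
    (hμp : MeasurePreserving (fun x : UnitAddCircle => p • x) μ μ)
    (hνp : MeasurePreserving (fun x : UnitAddCircle => p • x) ν ν)
    (hsing : ∀ t : UnitAddCircle, ¬ IsOfFinAddOrder t → (ν.map (fun x => x + t)) ⟂ₘ ν)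
    {s : UnitAddCircle} (hirr : (Irrational l ∧ ∀ x, μ {x} = 0) ∨
      (¬ Irrational l ∧ ¬ IsOfFinAddOrder s)) :
    μ (A s) = 0 := by
  classical
  by_contra hne
  have hc : 0 < μ (A s) := pos_iff_ne_zero.2 hne
  have hctop : μ (A s) ≠ ∞ := measure_ne_top _ _
  have hc2 : 0 < μ (A s) / 2 := ENNReal.div_pos hne (by simp)
  set SG : Finset (ℕ × ℤ) → Set UnitAddCircle := fun G => ⋃ z ∈ G, A (orb p l s z) with hSG
  have hSGm : ∀ G, MeasurableSet (SG G) := fun G =>
    Finset.measurableSet_biUnion _ (fun z _ => M.measA _)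
  have hmono : Monotone SG := by
    intro G G' hGG'
    exact biUnion_subset_biUnion_left hGG'
  set U : Set UnitAddCircle := ⋃ G, SG G with hU
  have hUm : MeasurableSet U := MeasurableSet.iUnion hSGm
  have hmemU : ∀ z x, x ∈ A (orb p l s z) → x ∈ U := by
    intro z x hx
    refine mem_iUnion.2 ⟨{z}, ?_⟩
    simp only [hSG, Finset.mem_singleton, iUnion_iUnion_eq_left]
    exact hx
  obtain ⟨G, hG⟩ : ∃ G : Finset (ℕ × ℤ), μ (U \ SG G) < μ (A s) / 2 := by
    have ht := tendsto_measure_iUnion_atTop (μ := μ) hmono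
    have hlt : μ U < μ U + μ (A s) / 2 := ENNReal.lt_add_right (measure_ne_top _ _) hc2.ne'
    have ht2 : Tendsto (fun G => μ (SG G) + μ (A s) / 2) atTop (𝓝 (μ U + μ (A s) / 2)) :=
      ht.add_const _
    obtain ⟨G, hG⟩ := (ht2.eventually (lt_mem_nhds hlt)).exists
    refine ⟨G, ?_⟩
    rw [measure_sdiff (subset_iUnion SG G) (hSGm G).nullMeasurableSet (measure_ne_top _ _)]
    refine ENNReal.sub_lt_of_lt_add (measure_mono (subset_iUnion SG G)) ?_
    rwa [add_comm]
  -- overlaps are null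
  have hoverlap : μ (⋃ z : (ℕ × ℤ) × (ℕ × ℤ), {x | x ∈ A (orb p l s z.1) ∩ A (orb p l s z.2) ∧
      ¬ IsOfFinAddOrder (orb p l s z.2 - orb p l s z.1)}) = 0 := by
    rw [measure_iUnion_null_iff]
    intro z
    by_cases hz : IsOfFinAddOrder (orb p l s z.2 - orb p l s z.1)
    · refine measure_mono_null ?_ (measure_empty (μ := μ))
      intro x hx
      exact (hx.2 hz).elim
    · refine measure_mono_null ?_ (M.disjoint hsing hz)
      intro x hx
      exact hx.1
  -- main inequality at each time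
  have hineq : ∀ n : ℕ, μ (A s) ≤ μ (U \ SG G) + μ {x | ∃ z ∈ G, IsOfFinAddOrder
      (orb p l s z - orb p l s (n, ⌊((p ^ n : ℕ) : ℝ) * rep01 x⌋))} := by
    intro n
    have hμn := mp_pow hμp n
    have hνn := mp_pow hνp n
    have e1 : μ (U \ SG G) = μ ((fun x : UnitAddCircle => (p ^ n) • x) ⁻¹' (U \ SG G)) :=
      (hμn.measure_preimage (hUm.diff (hSGm G)).nullMeasurableSet).symm
    have h0 : μ ((fun x : UnitAddCircle => (p ^ n) • x) ⁻¹'
        (⋃ z : (ℕ × ℤ) × (ℕ × ℤ), {x | x ∈ A (orb p l s z.1) ∩ A (orb p l s z.2) ∧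
      ¬ IsOfFinAddOrder (orb p l s z.2 - orb p l s z.1)})) = 0 := by
      exact hμn.quasiMeasurePreserving.preimage_null hoverlap
    rw [e1]
    refine le_trans (measure_mono_ae ?_) (measure_union_le _ _)
    have hstep := M.step hνn s
    have h0' : ∀ᵐ x ∂μ, x ∉ ((fun x : UnitAddCircle => (p ^ n) • x) ⁻¹'
        (⋃ z : (ℕ × ℤ) × (ℕ × ℤ), {x | x ∈ A (orb p l s z.1) ∩ A (orb p l s z.2) ∧
      ¬ IsOfFinAddOrder (orb p l s z.2 - orb p l s z.1)})) := measure_eq_zero_iff_ae_notMem.1 h0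
    filter_upwards [hstep, h0'] with x hx1 hx2 hxA
    have hx3 : (p ^ n) • x ∈ A (orb p l s (n, ⌊((p ^ n : ℕ) : ℝ) * rep01 x⌋)) := hx1 hxA
    by_cases hxG : (p ^ n) • x ∈ SG G
    · right
      obtain ⟨z, hz, hxz⟩ := mem_iUnion₂.1 hxG
      refine ⟨z, hz, ?_⟩
      by_contra hinf
      apply hx2
      refine mem_iUnion.2 ⟨((n, ⌊((p ^ n : ℕ) : ℝ) * rep01 x⌋), z), ⟨hx3, hxz⟩, hinf⟩
    · left
      exact ⟨hmemU _ _ hx3, hxG⟩
  -- the exceptional set is small for some time
  have hsmall : ∃ n : ℕ, μ {x | ∃ z ∈ G, IsOfFinAddOrder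
      (orb p l s z - orb p l s (n, ⌊((p ^ n : ℕ) : ℝ) * rep01 x⌋))} ≤ μ (A s) / 2 := by
    rcases hirr with ⟨hl, hμ0⟩ | ⟨hl, hs⟩
    · have hna : NullSingletonClass μ := ⟨hμ0⟩
      have hη : 0 < μ (A s) / 2 / ((G.card : ℝ≥0∞) + 1) :=
        ENNReal.div_pos hc2.ne' (by finiteness)
      obtain ⟨n, hn⟩ := small_cells μ hp hη
      refine ⟨n, ?_⟩
      have hsub : {x | ∃ z ∈ G, IsOfFinAddOrder
          (orb p l s z - orb p l s (n, ⌊((p ^ n : ℕ) : ℝ) * rep01 x⌋))} ⊆ ⋃ z ∈ G,
          {x | IsOfFinAddOrder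
            (orb p l s z - orb p l s (n, ⌊((p ^ n : ℕ) : ℝ) * rep01 x⌋))} := by
        rintro x ⟨z, hz, hx⟩
        exact mem_iUnion₂.2 ⟨z, hz, hx⟩
      refine (measure_mono hsub).trans ((measure_biUnion_finset_le _ _).trans ?_)
      have hz : ∀ z ∈ G, μ {x | IsOfFinAddOrder
            (orb p l s z - orb p l s (n, ⌊((p ^ n : ℕ) : ℝ) * rep01 x⌋))} ≤
            μ (A s) / 2 / ((G.card : ℝ≥0∞) + 1) := by
        intro z _
        by_cases hne' : {x | IsOfFinAddOrder
            (orb p l s z - orb p l s (n, ⌊((p ^ n : ℕ) : ℝ) * rep01 x⌋))}.Nonempty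
        · obtain ⟨y, hy⟩ := hne'
          refine le_trans (measure_mono ?_) (hn n le_rfl ⌊((p ^ n : ℕ) : ℝ) * rep01 y⌋)
          intro x hx
          change ⌊((p ^ n : ℕ) : ℝ) * rep01 x⌋ = ⌊((p ^ n : ℕ) : ℝ) * rep01 y⌋
          by_contra hxy
          have h1 : IsOfFinAddOrder (orb p l s (n, ⌊((p ^ n : ℕ) : ℝ) * rep01 x⌋) -
              orb p l s (n, ⌊((p ^ n : ℕ) : ℝ) * rep01 y⌋)) := by
            have h2 := (IsOfFinAddOrder.neg hx).add hy
            have h3 : orb p l s (n, ⌊((p ^ n : ℕ) : ℝ) * rep01 x⌋) -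
                orb p l s (n, ⌊((p ^ n : ℕ) : ℝ) * rep01 y⌋) =
                -(orb p l s z - orb p l s (n, ⌊((p ^ n : ℕ) : ℝ) * rep01 x⌋)) +
                (orb p l s z - orb p l s (n, ⌊((p ^ n : ℕ) : ℝ) * rep01 y⌋)) := by abel
            rw [h3]
            exact h2
          rw [orb_sub_same, isOfFinAddOrder_coe_iff] at h1
          exact h1 (hl.mul_intCast (sub_ne_zero.2 hxy))
        · rw [not_nonempty_iff_eq_empty] at hne'
          rw [hne', measure_empty]
          exact zero_le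
      calc ∑ z ∈ G, μ {x | IsOfFinAddOrder
            (orb p l s z - orb p l s (n, ⌊((p ^ n : ℕ) : ℝ) * rep01 x⌋))}
          ≤ ∑ z ∈ G, μ (A s) / 2 / ((G.card : ℝ≥0∞) + 1) := Finset.sum_le_sum hz
        _ = (G.card : ℝ≥0∞) * (μ (A s) / 2 / ((G.card : ℝ≥0∞) + 1)) := by
            rw [Finset.sum_const, nsmul_eq_mul]
        _ ≤ ((G.card : ℝ≥0∞) + 1) * (μ (A s) / 2 / ((G.card : ℝ≥0∞) + 1)) := by
            gcongr
            exact le_self_add
        _ = μ (A s) / 2 := ENNReal.mul_div_cancel (by simp) (by finiteness)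
    · refine ⟨(G.sup fun z => z.1) + 1, ?_⟩
      refine le_trans (le_of_eq ?_) zero_le
      refine measure_mono_null ?_ (measure_empty (μ := μ))
      rintro x ⟨z, hz, hx⟩
      exfalso
      have hzn : z.1 < (G.sup fun z => z.1) + 1 :=
        Nat.lt_succ_of_le (Finset.le_sup (f := fun z : ℕ × ℤ => z.1) hz)
      generalize (G.sup fun z => z.1) + 1 = n at hx hzn
      have hl2 : ∀ i : ℤ, IsOfFinAddOrder ((l * (i : ℝ) : ℝ) : UnitAddCircle) := by
        intro i
        rw [isOfFinAddOrder_coe_iff]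
        intro hi
        apply hl
        by_cases hi0 : i = 0
        · subst hi0
          simp [Irrational] at hi
        · exact (irrational_mul_intCast_iff.1 hi).2
      have h1 : IsOfFinAddOrder (p ^ z.1 • s - p ^ n • s) := by
        have h2 := (hx.add (IsOfFinAddOrder.neg (hl2 z.2))).add
          (hl2 ⌊((p ^ n : ℕ) : ℝ) * rep01 x⌋)
        have h4 : p ^ z.1 • s - p ^ n • s =
            (orb p l s z - orb p l s (n, ⌊((p ^ n : ℕ) : ℝ) * rep01 x⌋)) +
            -((l * (z.2 : ℝ) : ℝ) : UnitAddCircle) +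
            ((l * (⌊((p ^ n : ℕ) : ℝ) * rep01 x⌋ : ℝ) : ℝ) : UnitAddCircle) := by
          unfold orb
          abel
        rw [h4]
        exact h2
      have h3 : IsOfFinAddOrder ((p ^ n - p ^ z.1) • s) := by
        rw [sub_nsmul _ (Nat.pow_le_pow_right (by omega) hzn.le)]
        have h5 : p ^ n • s + -(p ^ z.1 • s) = -(p ^ z.1 • s - p ^ n • s) := by abel
        rw [h5]
        exact IsOfFinAddOrder.neg h1
      apply hs
      exact h3.of_nsmul (Nat.sub_ne_zero_of_lt (Nat.pow_lt_pow_right (by omega) hzn))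
  obtain ⟨n, hn⟩ := hsmall
  have hfin : μ (A s) < μ (A s) / 2 + μ (A s) / 2 :=
    lt_of_le_of_lt (hineq n) (ENNReal.add_lt_add_of_lt_of_le (ne_top_of_le_ne_top hctop
      (hn.trans ENNReal.half_le_self)) hG hn)
  rw [ENNReal.add_halves] at hfin
  exact lt_irrefl _ hfin

end Main


theorem periodicLift_apply (μ : Measure UnitAddCircle) {E : Set ℝ} (hE : MeasurableSet E) :
    periodicLift μ E = ∑' n : ℤ, μ {x | rep01 x + n ∈ E} := by
  unfold periodicLift
  rw [Measure.sum_apply _ hE]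
  congr 1
  funext n
  rw [Measure.map_apply (measurable_rep01.add_const _) hE]
  rfl

/-- Images of `μ` under affine maps of the line with not both coefficients rational are singular
to `ν`. -/
theorem affine_singular {p q : ℕ} (hp : 2 ≤ p) (hq : 2 ≤ q)
    (h : Irrational (Real.log (p : ℝ) / Real.log (q : ℝ)))
    {μ ν : Measure UnitAddCircle} [IsProbabilityMeasure μ] [IsProbabilityMeasure ν]
    (hμp : MeasurePreserving (fun x : UnitAddCircle => p • x) μ μ)
    (hνp : MeasurePreserving (fun x : UnitAddCircle => p • x) ν ν)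
    (hνq : MeasurePreserving (fun x : UnitAddCircle => q • x) ν ν)
    (hsing : ν ⟂ₘ (volume : Measure UnitAddCircle)) {l t : ℝ}
    (hlt : (Irrational l ∧ ∀ x, μ {x} = 0) ∨ (¬ Irrational l ∧ Irrational t)) :
    ((periodicLift μ).map fun x => l * x + t) ⟂ₘ periodicLift ν := by
  obtain ⟨A, N, M⟩ := exists_matching μ ν l
  have hnull : ∀ n : ℤ, μ (A ((l * n + t : ℝ) : UnitAddCircle)) = 0 := by
    intro n
    refine M.null hp hμp hνp (fun u hu => translate_singular hp hq h hνp hνp hνq hsing hu) ?_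
    rcases hlt with hl | ⟨hl, ht⟩
    · exact Or.inl hl
    · refine Or.inr ⟨hl, ?_⟩
      rw [isOfFinAddOrder_coe_iff, not_not]
      have hl' : ∃ r : ℚ, (r : ℝ) = l := by
        simpa [Irrational] using hl
      obtain ⟨r, rfl⟩ := hl'
      have := ht.ratCast_add (r * n)
      push_cast at this
      exact this
  set S : Set UnitAddCircle := ⋃ n : ℤ, N ((l * n + t : ℝ) : UnitAddCircle) with hS
  have hSm : MeasurableSet S := MeasurableSet.iUnion fun n => M.measN _
  have hS0 : ν S = 0 := measure_iUnion_null fun n => M.nullN _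
  have hcoe : Measurable fun x : ℝ => (x : UnitAddCircle) :=
    (AddCircle.continuous_mk' (1 : ℝ)).measurable
  have hf : Measurable fun x : ℝ => l * x + t := by fun_prop
  refine ⟨(fun x : ℝ => (x : UnitAddCircle)) ⁻¹' Sᶜ, hcoe hSm.compl, ?_, ?_⟩
  · rw [Measure.map_apply hf (hcoe hSm.compl), periodicLift_apply _ (hf (hcoe hSm.compl)),
      ENNReal.tsum_eq_zero]
    intro n
    refine measure_mono_null ?_ (hnull n)
    intro x hx
    rw [M.defA]
    have hx' : ((l * (rep01 x + n) + t : ℝ) : UnitAddCircle) ∉ S := hx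
    intro hmem
    apply hx'
    refine mem_iUnion.2 ⟨n, ?_⟩
    have e : affMap l ((l * n + t : ℝ) : UnitAddCircle) x =
        ((l * (rep01 x + n) + t : ℝ) : UnitAddCircle) := by
      unfold affMap
      rw [← AddCircle.coe_add]
      congr 1
      ring
    rw [← e]
    exact hmem
  · rw [← preimage_compl, compl_compl, periodicLift_apply _ (hcoe hSm), ENNReal.tsum_eq_zero]
    intro n
    refine measure_mono_null ?_ hS0
    intro x hx
    have hx' : ((rep01 x + n : ℝ) : UnitAddCircle) ∈ S := hx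
    have e : ((rep01 x + n : ℝ) : UnitAddCircle) = x := by
      rw [AddCircle.coe_add, coe_rep01]
      have : ((n : ℝ) : UnitAddCircle) = 0 := by
        rw [AddCircle.coe_eq_zero_iff]
        exact ⟨n, by simp⟩
      rw [this, add_zero]
    rwa [e] at hx'

end Pool.Agent.H.MP_96e181_an
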