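import Mathlib
import Pool.Agent.H.MP_96e181_an.ExplicitScale
import Pool.Agent.H.MP_96e181_an.Erg

set_option autoImplicit false

open MeasureTheory
open scoped ENNReal

namespace Pool.Agent.H.MP_96e181_an.ExplicitScaleResult

/-- Finite-scale rigidity with an explicit scale, for coprime `p` and `q`. If, for each `η > 0`,
there are `n` and a radius `ρ ≤ q ^ (-(p ^ n))` such that with `μ`-probability at least `c` the
ball of radius `ρ` around `x` has at most the fraction `η` of the mass of the ball of radius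
`p ^ n * ρ` around `p ^ n x`, then `μ` dominates `c` times Lebesgue measure. -/
theorem result :
    ∀ p q : ℕ, 2 ≤ p → 2 ≤ q → Nat.Coprime p q →
      ∀ μ : Measure UnitAddCircle, IsProbabilityMeasure μ →
        MeasurePreserving (fun x : UnitAddCircle => p • x) μ μ →
        MeasurePreserving (fun x : UnitAddCircle => q • x) μ μ →
        ∀ c : ℝ≥0∞,
          (∀ η : ℝ≥0∞, 0 < η → ∃ n : ℕ, ∃ ρ : ℝ, 0 < ρ ∧ ρ ≤ ((q : ℝ) ^ (p ^ n))⁻¹ ∧
            c ≤ μ {x | μ (Metric.ball x ρ) ≤
              η * μ (Metric.closedBall ((p ^ n) • x) ((p : ℝ) ^ n * ρ))}) →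
          c • (volume : Measure UnitAddCircle) ≤ μ ∧
            (0 < c →
              (∀ A : Set UnitAddCircle, MeasurableSet A →
                (fun x : UnitAddCircle => p • x) ⁻¹' A = A →
                (fun x : UnitAddCircle => q • x) ⁻¹' A = A → μ A = 0 ∨ μ Aᶜ = 0) →
              μ = (volume : Measure UnitAddCircle)) := by
  intro p q hp hq hcop μ hμ hμp hμq c hc
  have hle : c • (volume : Measure UnitAddCircle) ≤ μ := by
    refine Pool.Agent.H.MP_96e181_an.explicit_scale hp hq hcop μ hμq c (fun η hη => ?_)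
    obtain ⟨n, ρ, h1, h2, h3⟩ := hc η hη
    refine ⟨n, ρ, h1, h2, h3.trans (le_of_eq ?_)⟩
    congr 1
    ext x
    have hpre : {y : UnitAddCircle | dist ((p ^ n) • y) ((p ^ n) • x) ≤ (p ^ n : ℕ) * ρ} =
        (fun y : UnitAddCircle => (p ^ n) • y) ⁻¹'
          (Metric.closedBall ((p ^ n) • x) ((p : ℝ) ^ n * ρ)) := by
      ext y
      simp [Metric.mem_closedBall]
    simp only [Set.mem_ofPred_eq, hpre]
    rw [(Pool.Agent.H.MP_96e181_an.mp_pow hμp n).measure_preimage
      Metric.isClosed_closedBall.measurableSet.nullMeasurableSet]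
  exact ⟨hle, fun hc0 herg =>
    Pool.Agent.H.MP_96e181_an.eq_volume_of_ergodic hp hq hμp hμq herg hc0 hle⟩

end Pool.Agent.H.MP_96e181_an.ExplicitScaleResult
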